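import Pool.Agent.helper56.NR.Spec

/-!
# Project nr: (MP_af9036_an), module BRU: uniqueness of branches on two balls of different radii
-/

set_option autoImplicit false

open Complex Metric Set Filter Topology MeasureTheory Pool.Agent.helper98.ILF

open EX (ff)

noncomputable section

namespace NR

theorem BRU : BRU_stmt := by
  intro n c m y y' p r r' G G' hB hB' hpy hpy' hp
  obtain ⟨hG, hGi⟩ := hB
  obtain ⟨hG', hGi'⟩ := hB'
  have h1 : AnalyticOnNhd ℂ G (ball y r ∩ ball y' r') := fun z hz =>
    (hG.analyticOnNhd isOpen_ball) z hz.1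
  have h2 : AnalyticOnNhd ℂ G' (ball y r ∩ ball y' r') := fun z hz =>
    (hG'.analyticOnNhd isOpen_ball) z hz.2
  apply h1.eqOn_of_preconnected_of_eventuallyEq h2
    ((convex_ball y r).inter (convex_ball y' r')).isPreconnected ⟨hpy, hpy'⟩
  set F := (ff n c)^[m] with hF
  have hFd : Differentiable ℂ F := ffi_diff n c m
  have hder : deriv F (G p) ≠ 0 := by
    intro h0
    have h3 : HasDerivAt F (deriv F (G p)) (G p) := (hFd _).hasDerivAt
    have h4 : HasDerivAt G (deriv G p) p :=
      ((hG p hpy).differentiableAt (isOpen_ball.mem_nhds hpy)).hasDerivAt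
    have h5 := h3.comp p h4
    have h6 : HasDerivAt (F ∘ G) 1 p := by
      apply (hasDerivAt_id p).congr_of_eventuallyEq
      filter_upwards [isOpen_ball.mem_nhds hpy] with z hz
      exact hGi z hz
    have h7 := h5.unique h6
    rw [h0, zero_mul] at h7
    exact zero_ne_one h7
  have hst : HasStrictDerivAt F (deriv F (G p)) (G p) := by
    apply (hFd.analyticAt (G p)).hasStrictDerivAt
  obtain ⟨s, hs, hinj⟩ : ∃ s ∈ 𝓝 (G p), InjOn F s := by
    have h8 := hst.eventually_left_inverse hder
    refine ⟨_, h8, ?_⟩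
    intro a ha b hb hab
    have ha' := ha
    have hb' := hb
    rw [mem_ofPred_eq] at ha' hb'
    rw [hab] at ha'
    exact ha'.symm.trans hb'
  have hc1 : ContinuousAt G p := ((hG p hpy).differentiableAt (isOpen_ball.mem_nhds hpy)).continuousAt
  have hc2 : ContinuousAt G' p :=
    ((hG' p hpy').differentiableAt (isOpen_ball.mem_nhds hpy')).continuousAt
  have e1 : ∀ᶠ z in 𝓝 p, G z ∈ s := hc1 hs
  have e2 : ∀ᶠ z in 𝓝 p, G' z ∈ s := hc2 (hp ▸ hs)
  filter_upwards [e1, e2, isOpen_ball.mem_nhds hpy, isOpen_ball.mem_nhds hpy'] with z h1 h2 h3 h4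
  apply hinj h1 h2
  rw [hGi z h3, hGi' z h4]

end NR
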