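import Pool.Agent.helper24.NR.Spec

/-!
# EDG: the number of edges
-/

set_option autoImplicit false

namespace Pool.Agent.NR

open Finset

theorem EDG_mem_vs {V F : Type} {vs : F → Finset V} {es : F → Finset (Sym2 V)} (h : Cfg vs es)
    {f : F} {e : Sym2 V} (he : e ∈ es f) {x : V} (hx : x ∈ e) : x ∈ vs f := by
  induction e using Sym2.ind with
  | _ u v =>
    obtain ⟨hu, hv, -⟩ := h.ends f u v he
    rcases Sym2.mem_iff.1 hx with rfl | rfl
    · exact hu
    · exact hv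

theorem EDG_mem_EE {V F : Type} [Fintype V] [Fintype F] (es : F → Finset (Sym2 V)) (e : Sym2 V) :
    e ∈ EE es ↔ ∃ f, e ∈ es f := by
  unfold EE
  simp

open Classical in
theorem EDG_at {V F : Type} [Fintype V] [Fintype F] (es : F → Finset (Sym2 V)) (x : V) :
    ((EE es).filter fun e => x ∈ e).card = (NX es x).card := by
  have h : (EE es).filter (fun e => x ∈ e) = (NX es x).image fun v => s(x, v) := by
    ext e
    simp only [mem_filter, EDG_mem_EE, mem_image, NX, mem_univ, true_and]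
    constructor
    · rintro ⟨⟨f, hf⟩, hx⟩
      obtain ⟨v, rfl⟩ := hx
      exact ⟨v, ⟨f, hf⟩, rfl⟩
    · rintro ⟨v, ⟨f, hf⟩, rfl⟩
      exact ⟨⟨f, hf⟩, Sym2.mem_mk_left x v⟩
  rw [h, card_image_of_injective]
  intro v w hvw
  exact Sym2.congr_right.1 hvw

theorem EDG_pt (X Y P Q R : Prop) {_ : Decidable (P ∧ Q)} {_ : Decidable X} {_ : Decidable Y}
    {_ : Decidable (¬ X ∧ P)} {_ : Decidable (¬ Y ∧ Q)} {_ : Decidable R} (h1 : X → P) (h2 : X → ¬ Q) (h3 : Y → Q) (h4 : Y → ¬ P)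
    (h5 : R ↔ ¬ P ∧ ¬ Q) :
    1 + (if P ∧ Q then 1 else 0) = (if X then 1 else 0) + (if Y then 1 else 0) +
      (if ¬ X ∧ P then 1 else 0) + (if ¬ Y ∧ Q then 1 else 0) + (if R then 1 else 0) := by
  by_cases hX : X <;> by_cases hY : Y <;> by_cases hP : P <;> by_cases hQ : Q <;>
    simp_all

theorem EDG (hDEG : DEG_stmt) : EDG_stmt := by
  classical
  intro V F _ _ vs es x y hb
  have hc := hb.cfg
  have hx := (EDG_at es x).trans (hDEG V F vs es x hc)
  have hy := (EDG_at es y).trans (hDEG V F vs es y hc)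
  rw [← hx, ← hy]
  unfold CM EX IN
  simp only [card_filter]
  rw [card_eq_sum_ones, ← sum_add_distrib, ← sum_add_distrib, ← sum_add_distrib,
    ← sum_add_distrib, ← sum_add_distrib]
  refine sum_congr rfl ?_
  intro e he
  obtain ⟨f, hf⟩ := (EDG_mem_EE es e).1 he
  refine EDG_pt _ _ _ _ _ ?_ ?_ ?_ ?_ ?_
  · intro h
    exact ⟨f, EDG_mem_vs hc hf h, hf⟩
  · rintro h ⟨g, hg1, hg2⟩
    exact hb.noface g (EDG_mem_vs hc hg2 h) hg1
  · intro h
    exact ⟨f, EDG_mem_vs hc hf h, hf⟩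
  · rintro h ⟨g, hg1, hg2⟩
    exact hb.noface g hg1 (EDG_mem_vs hc hg2 h)
  · constructor
    · intro h
      exact ⟨fun ⟨g, h1, h2⟩ => (h g h2).1 h1, fun ⟨g, h1, h2⟩ => (h g h2).2 h1⟩
    · rintro ⟨h1, h2⟩ g hg
      exact ⟨fun h => h1 ⟨g, h, hg⟩, fun h => h2 ⟨g, h, hg⟩⟩

end Pool.Agent.NR
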